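import Pool.Agent.K3h38.RHO.Basic
import Pool.Agent.K3h38.RHO.Lower
import Pool.Agent.K3h38.RHO.Upper

/-!
# The optimal fraction for partial line transversals: exact asymptotics

`rho k` is the largest `ρ` such that every finite family `F` of compact convex sets in the plane,
each of whose subfamilies with at most `k` members has a line transversal, has a subfamily with at
least `ρ |F|` members which has a line transversal.  We prove that `1 - rho k` is asymptotically
equal to `log k / k`:

  `(1 - rho k) * k / log k → 1` as `k → ∞`.

Known before: `1 / (k - 1) ≤ 1 - rho k ≤ C log k / k` (Holmsen).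

* Upper bound on `rho` (a new construction, `RHO/Geometry`, `Construction`, `Family`,
  `Partitions`, `Upper`): a piecewise linear convex function `P` with breakpoints at the multiples
  of `T = m + 1` in the slope variable; few sets whose lower ends form `P`, and `m s` polygons whose
  upper ends follow `P` except that in each block `[aT, (a+1)T]` they dip below it at one integer;
  the dip positions are given by `M` random balanced partitions of the `m s` polygons, so that
  no small family of polygons meets all classes.  Every line misses at least `s` of the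
  `(m + 2M + 3) s` sets.
* Lower bound on `rho` (`RHO/Canon`, `Sampling`, `Lower`): every subfamily with a transversal has
  a canonical one determined by two of its members; if every line missed a fraction
  `γ log k / k`, `γ > 1`, of the members then a two-step random choice with alteration would
  give at most `k` members without a common transversal.
-/

namespace Pool.Agent.Results.MP_05faf0_co.ExactAsymptotics

open Filter Topology K3h38.RHO

/-- Squeeze: both bounds together give the limit. -/
lemma limit_of {f : ℕ → ℝ}
    (hlow : ∀ γ : ℝ, 1 < γ → ∀ᶠ k : ℕ in atTop, 1 - γ * (Real.log k / k) ≤ f k)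
    (hup : ∀ γ : ℝ, γ < 1 → ∀ᶠ k : ℕ in atTop, f k ≤ 1 - γ * (Real.log k / k)) :
    Tendsto (fun k : ℕ => (1 - f k) * ((k : ℝ) / Real.log k)) atTop (𝓝 1) := by
  have hpos : ∀ᶠ k : ℕ in atTop, 0 < (k : ℝ) / Real.log k ∧
      Real.log k / k * ((k : ℝ) / Real.log k) = 1 := by
    filter_upwards [eventually_ge_atTop 3] with k hk
    have hk3 : (3 : ℝ) ≤ k := by exact_mod_cast hk
    have hl : 0 < Real.log k := Real.log_pos (by linarith)
    refine ⟨by positivity, ?_⟩
    field_simp
  rw [tendsto_order]
  constructor
  · intro a ha
    have h := hup ((a + 1) / 2) (by linarith)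
    filter_upwards [h, hpos] with k h1 h2
    obtain ⟨h3, h4⟩ := h2
    have h5 : (a + 1) / 2 * (Real.log k / k) ≤ 1 - f k := by linarith
    have h6 := mul_le_mul_of_nonneg_right h5 h3.le
    rw [mul_assoc, h4, mul_one] at h6
    linarith
  · intro a ha
    have h := hlow ((a + 1) / 2) (by linarith)
    filter_upwards [h, hpos] with k h1 h2
    obtain ⟨h3, h4⟩ := h2
    have h5 : 1 - f k ≤ (a + 1) / 2 * (Real.log k / k) := by linarith
    have h6 := mul_le_mul_of_nonneg_right h5 h3.le
    rw [mul_assoc, h4, mul_one] at h6
    linarith

/-- **Exact asymptotics of the optimal fraction.**  For every `k` the largest admissible fraction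
`rho k` exists, and `(1 - rho k) * k / log k → 1`; the same holds for the optimal fraction
`rhoIdx k` for indexed families. -/
theorem result :
    (∀ k : ℕ, IsGreatest {ρ : ℝ | Admissible k ρ} (rho k)) ∧
    (∀ k : ℕ, IsGreatest {ρ : ℝ | AdmissibleIdx k ρ} (rhoIdx k)) ∧
    Tendsto (fun k : ℕ => (1 - rho k) * ((k : ℝ) / Real.log k)) atTop (𝓝 1) ∧
    Tendsto (fun k : ℕ => (1 - rhoIdx k) * ((k : ℝ) / Real.log k)) atTop (𝓝 1) := by
  refine ⟨rho_isGreatest, rhoIdx_isGreatest, ?_, ?_⟩
  · refine limit_of (fun γ hγ => ?_) (fun γ hγ => ?_)
    · filter_upwards [lower_asymptotic hγ] with k hk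
      exact (rho_isGreatest k).2 hk.admissible
    · filter_upwards [upper_asymptotic hγ] with k hk
      exact hk _ (rho_isGreatest k).1
  · refine limit_of (fun γ hγ => ?_) (fun γ hγ => ?_)
    · filter_upwards [lower_asymptotic hγ] with k hk
      exact (rhoIdx_isGreatest k).2 hk
    · filter_upwards [upper_asymptotic hγ] with k hk
      exact hk _ (AdmissibleIdx.admissible (rhoIdx_isGreatest k).1)

end Pool.Agent.Results.MP_05faf0_co.ExactAsymptotics
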